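import Pool.Agent.Lib.MP_42b82d_co.PgFinal
import Pool.Agent.Lib.MP_42b82d_co.Thin
import Pool.Agent.Lib.MP_42b82d_co.Density

set_option autoImplicit false

namespace Pool.Agent.Results.MP_42b82d_co.IntimacyDensity

open Pool.Agent.Lib.MP_42b82d_co Finset Filter Topology

/-- The prime `p` is bad: the intimacy of the incidence graph of `PG(2,p)` is at most `0`. -/
def Bad (p : ℕ) : Prop := ∃ _ : Fact p.Prime, intimacy (incidenceGraph (ZMod p)) ≤ 0

/-- A bad prime gives a vector with negacyclic autocorrelation `p` having a signed sum `1`. -/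
lemma bad_vec {v : ℕ} (hv : 1 ≤ v) {p : ℕ} (hp : p.Prime)
    (hmod : p % 2 ^ (v + 1) = 2 ^ v - 1) (hbad : Bad p) :
    ∃ f : ZMod (2 * 2 ^ v) → ℤ, (∀ a, f (a + ((2 ^ v : ℕ) : ZMod (2 * 2 ^ v))) = - f a) ∧
        (∀ j : ZMod (2 * 2 ^ v), ∑ a, f a * f (a + j) =
          if j = 0 then 2 * (p : ℤ) else if j = ((2 ^ v : ℕ) : ZMod (2 * 2 ^ v)) then
            - (2 * (p : ℤ)) else 0) ∧
        ∃ E : ZMod (2 * 2 ^ v) → ℤ, (∀ a, |E a| ≤ ((1 : ℕ) : ℤ)) ∧ ∑ a, E a * f a = 1 := by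
  classical
  obtain ⟨hF, hb⟩ := hbad
  haveI := hF
  haveI : Fintype (GaloisField p 2) := Fintype.ofFinite _
  have hE : Module.finrank (ZMod p) (GaloisField p 2) = 2 :=
    GaloisField.finrank p (by norm_num)
  haveI : NeZero (2 ^ v) := ⟨by positivity⟩
  have h2v : 2 ^ (v + 1) = 2 * 2 ^ v := by rw [pow_succ']
  have hv2 : 2 ∣ 2 ^ v := dvd_pow_self 2 (by omega)
  have hpos : 0 < 2 ^ v := by positivity
  have hdm := Nat.div_add_mod p (2 ^ (v + 1))
  rw [hmod, h2v] at hdm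
  -- p + 1 = 2 ^ v * (2 q + 1)
  set q := p / (2 * 2 ^ v) with hq
  have hp1 : p + 1 = 2 ^ v * (2 * q + 1) := by
    have : 2 * 2 ^ v * q + (2 ^ v - 1) + 1 = 2 ^ v * (2 * q + 1) := by
      have : 2 ^ v - 1 + 1 = 2 ^ v := by omega
      rw [add_assoc, this]; ring
    rw [← this, hdm]
  have hodd : Odd p := by
    rcases hp.eq_two_or_odd' with h | h
    · exfalso
      have h3 : 2 ∣ p + 1 := by
        rw [hp1]
        exact Dvd.dvd.mul_right hv2 _
      omega
    · exact h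
  have hdvd : 2 * 2 ^ v ∣ p ^ 2 - 1 := by
    have h1 : p ^ 2 - 1 = (p + 1) * (p - 1) := by
      have := Nat.sq_sub_sq p 1
      simpa using this
    obtain ⟨k, hk⟩ := hodd
    rw [h1, hp1]
    have h2 : p - 1 = 2 * k := by omega
    rw [h2]
    exact ⟨(2 * q + 1) * k, by ring⟩
  have hw : ((p + 1 : ℕ) : ZMod (2 * 2 ^ v)) = ((2 ^ v : ℕ) : ZMod (2 * 2 ^ v)) := by
    rw [ZMod.natCast_eq_natCast_iff, hp1]
    have : 2 ^ v * (2 * q + 1) = 2 ^ v + (2 * 2 ^ v) * q := by ring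
    rw [this]
    exact (Nat.add_mul_mod_self_left _ _ _)
  have hww : ((2 ^ v : ℕ) : ZMod (2 * 2 ^ v)) + ((2 ^ v : ℕ) : ZMod (2 * 2 ^ v)) = 0 := by
    rw [← Nat.cast_add, ZMod.natCast_eq_zero_iff]
    exact ⟨1, by ring⟩
  have hw0 : ((2 ^ v : ℕ) : ZMod (2 * 2 ^ v)) ≠ 0 := by
    rw [Ne, ZMod.natCast_eq_zero_iff]
    intro h
    have := Nat.le_of_dvd hpos h
    omega
  obtain ⟨D, hD⟩ := exists_dlog hE (2 * 2 ^ v) hdvd _ hw hww hw0
  have hno : ¬ HasInternalPartition (incidenceGraph (ZMod p)) 1 := by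
    intro h
    have := le_intimacy _ _ h
    omega
  have hX0 : ∃ X : ZMod (2 * 2 ^ v) → ℤˣ, ∀ j, X (j + D.w) = - X j := by
    refine ⟨Xf (2 ^ v) 0, ?_⟩
    rw [hD]
    exact Xf_odd 0
  have hex : ∃ X : ZMod (2 * 2 ^ v) → ℤˣ, (∀ j, X (j + D.w) = - X j) ∧ ∃ i,
      Fl D X i = 1 ∨ Fl D X i = -1 := by
    by_contra hcon
    push Not at hcon
    exact hno (internal_of_no_unit_field hE D hodd hX0 hcon)
  have hsum2 : ∀ F : ZMod (2 * 2 ^ v) → ℤ, ∑ a, F a = ∑ j ∈ range (2 ^ v),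
      (F (j : ZMod (2 * 2 ^ v)) + F ((j : ZMod (2 * 2 ^ v)) + ((2 ^ v : ℕ) : ZMod (2 * 2 ^ v)))) :=
    fun F => sum_zmod_eq_half (n := 2 ^ v) F
  have hneg : ∀ a, fD D (a + ((2 ^ v : ℕ) : ZMod (2 * 2 ^ v))) = - fD D a := by
    intro a
    rw [← hD]
    exact fD_add_w D a
  refine ⟨fD D, hneg, ?_, ?_⟩
  · intro j
    rw [hsum2]
    have h1 : ∀ k ∈ range (2 ^ v), (fD D (k : ZMod (2 * 2 ^ v)) * fD D ((k : ZMod (2 * 2 ^ v)) + j) +
        fD D ((k : ZMod (2 * 2 ^ v)) + ((2 ^ v : ℕ) : ZMod (2 * 2 ^ v))) *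
          fD D ((k : ZMod (2 * 2 ^ v)) + ((2 ^ v : ℕ) : ZMod (2 * 2 ^ v)) + j)) =
        2 * (fD D (k : ZMod (2 * 2 ^ v)) * fD D ((k : ZMod (2 * 2 ^ v)) + j)) := by
      intro k _
      rw [add_right_comm, hneg, hneg]
      ring
    rw [sum_congr rfl h1, ← mul_sum]
    by_cases hj0 : j = 0
    · rw [if_pos hj0, corr_half hE D hD j (by rw [hj0, hD]; exact hw0.symm), if_pos hj0]
    · rw [if_neg hj0]
      by_cases hjw : j = ((2 ^ v : ℕ) : ZMod (2 * 2 ^ v))
      · rw [if_pos hjw, hjw]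
        have h2 := corr_half hE D hD 0 (by rw [hD]; exact hw0.symm)
        rw [if_pos rfl] at h2
        have h3 : ∀ k ∈ range (2 ^ v), fD D (k : ZMod (2 * 2 ^ v)) *
            fD D ((k : ZMod (2 * 2 ^ v)) + ((2 ^ v : ℕ) : ZMod (2 * 2 ^ v))) =
            - (fD D (k : ZMod (2 * 2 ^ v)) * fD D ((k : ZMod (2 * 2 ^ v)) + 0)) := by
          intro k _
          rw [hneg, add_zero]
          ring
        rw [sum_congr rfl h3, sum_neg_distrib, h2]
        ring
      · rw [if_neg hjw, corr_half hE D hD j (by rw [hD]; exact hjw), if_neg hj0, mul_zero]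
  · obtain ⟨X, hX, i, hi⟩ := hex
    -- the sign of the field
    obtain ⟨s, hs, hs1⟩ : ∃ s : ℤ, |s| ≤ 1 ∧ s * Fl D X i = 1 := by
      rcases hi with h | h
      · exact ⟨1, by simp, by rw [h]; ring⟩
      · exact ⟨-1, by simp, by rw [h]; ring⟩
    refine ⟨fun a => if a.val < 2 ^ v then s * (X (a - i) : ℤ) else 0, ?_, ?_⟩
    · intro a
      simp only
      split_ifs
      · rw [abs_mul]
        rcases units_cases (X (a - i)) with h | h <;> rw [h] <;> simpa using hs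
      · simp
    · rw [hsum2]
      have h4 : ∀ k ∈ range (2 ^ v),
          ((fun a : ZMod (2 * 2 ^ v) => (if a.val < 2 ^ v then s * (X (a - i) : ℤ) else 0) * fD D a)
            (k : ZMod (2 * 2 ^ v)) +
          (fun a : ZMod (2 * 2 ^ v) => (if a.val < 2 ^ v then s * (X (a - i) : ℤ) else 0) * fD D a)
            ((k : ZMod (2 * 2 ^ v)) + ((2 ^ v : ℕ) : ZMod (2 * 2 ^ v)))) =
          s * (cc D k * (X ((k : ZMod (2 * 2 ^ v)) - i) : ℤ)) := by
        intro k hk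
        have hk' := mem_range.1 hk
        have e1 : ((k : ℕ) : ZMod (2 * 2 ^ v)).val = k := ZMod.val_cast_of_lt (by omega)
        have e2 : ((k : ZMod (2 * 2 ^ v)) + ((2 ^ v : ℕ) : ZMod (2 * 2 ^ v))).val = k + 2 ^ v := by
          rw [← Nat.cast_add]
          exact ZMod.val_cast_of_lt (by omega)
        simp only [e1, e2]
        rw [if_pos hk', if_neg (by omega), cc_eq_fD D hD]
        ring
      rw [sum_congr rfl h4, ← mul_sum, ← Fl_half D hD X hX i, hs1]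

lemma empty_zero (Q : ℕ → Prop) [DecidablePred Q] :
    (range (0 + 1)).filter (fun p : ℕ => p.Prime ∧ Q p) = ∅ := by
  rw [filter_eq_empty_iff]
  intro p hp hp2
  rw [mem_range] at hp
  have := hp2.1.two_le
  omega

/-- Power saving for the primes `p` such that `2 ^ v` divides `p + 1` exactly. -/
lemma exact_thin (v : ℕ) [DecidablePred Bad] : ∃ C : ℝ, 0 ≤ C ∧ ∀ X : ℕ,
      (((range (X + 1)).filter (fun p : ℕ => p.Prime ∧ (2 ^ v ∣ p + 1 ∧ ¬ 2 ^ (v + 1) ∣ p + 1) ∧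
        Bad p)).card : ℝ) ≤ C * (X : ℝ) ^ (1 - 1 / (2 : ℝ) ^ (v + 1)) := by
  classical
  have hle : ∀ k : ℕ, 1 / (2 : ℝ) ^ k ≤ 1 := by
    intro k
    rw [div_le_one (by positivity)]
    exact one_le_pow₀ (by norm_num)
  by_cases hv : v < 4
  · -- only primes at most 23
    refine ⟨24, by norm_num, fun X => ?_⟩
    have hsub : ((range (X + 1)).filter (fun p : ℕ => p.Prime ∧
        (2 ^ v ∣ p + 1 ∧ ¬ 2 ^ (v + 1) ∣ p + 1) ∧ Bad p)) ⊆ range 24 := by
      intro p hp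
      rw [mem_filter] at hp
      obtain ⟨_, hp, ⟨_, h2⟩, hF, hb⟩ := hp
      rw [mem_range]
      by_contra hcon
      have h16 : ¬ 16 ∣ p + 1 := by
        intro h
        apply h2
        have : 2 ^ (v + 1) ∣ 16 := by
          have : 2 ^ (v + 1) ∣ 2 ^ 4 := pow_dvd_pow 2 (by omega)
          simpa using this
        exact this.trans h
      have := one_le_intimacy p (by omega) h16
      omega
    by_cases hX : X = 0
    · subst hX
      rw [empty_zero]
      simp only [card_empty, Nat.cast_zero]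
      positivity
    · have hX1 : (1 : ℝ) ≤ X := by exact_mod_cast Nat.one_le_iff_ne_zero.2 hX
      have h1 := card_le_card hsub
      rw [card_range] at h1
      have h2 : (1 : ℝ) ≤ (X : ℝ) ^ (1 - 1 / (2 : ℝ) ^ (v + 1)) :=
        Real.one_le_rpow hX1 (by linarith [hle (v + 1)])
      have h3 : (((range (X + 1)).filter (fun p : ℕ => p.Prime ∧
        (2 ^ v ∣ p + 1 ∧ ¬ 2 ^ (v + 1) ∣ p + 1) ∧ Bad p)).card : ℝ) ≤ 24 := by exact_mod_cast h1
      linarith
  · obtain ⟨C, hC, h⟩ := Thin42b.thin v (by omega) 1 1 one_ne_zero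
    refine ⟨C, hC, fun X => ?_⟩
    by_cases hX : X = 0
    · subst hX
      rw [empty_zero]
      simp only [card_empty, Nat.cast_zero]
      positivity
    have hX1 : (1 : ℝ) ≤ X := by exact_mod_cast Nat.one_le_iff_ne_zero.2 hX
    refine (h X _ ?_).trans ?_
    · intro p hp
      rw [mem_filter, mem_range] at hp
      obtain ⟨hpX, hp, ⟨h1, h2⟩, hbad⟩ := hp
      have hmod : p % 2 ^ (v + 1) = 2 ^ v - 1 := by
        obtain ⟨k, hk⟩ := h1
        have hodd : k % 2 = 1 := by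
          by_contra hcon
          apply h2
          rw [hk, pow_succ]
          exact Nat.mul_dvd_mul_left _ (Nat.dvd_of_mod_eq_zero (by omega))
        have h2v : 2 ^ (v + 1) = 2 * 2 ^ v := by rw [pow_succ']
        have hpos : 0 < 2 ^ v := by positivity
        have h3 : p = 2 * 2 ^ v * (k / 2) + (2 ^ v - 1) := by
          have hk2 : k = 2 * (k / 2) + 1 := by omega
          have h4 : p + 1 = 2 * 2 ^ v * (k / 2) + 2 ^ v := by
            rw [hk]
            nth_rw 1 [hk2]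
            ring
          omega
        rw [h2v]
        nth_rw 1 [h3]
        rw [Nat.mul_add_mod, Nat.mod_eq_of_lt (by omega)]
      exact ⟨by omega, hp, hmod, bad_vec (by omega) hp hmod hbad⟩
    · apply mul_le_mul_of_nonneg_left _ hC
      apply Real.rpow_le_rpow_of_exponent_le hX1
      have : 1 / (2 : ℝ) ^ (v + 1) ≤ 1 / (2 : ℝ) ^ (v - 1) := by
        apply one_div_le_one_div_of_le (by positivity)
        exact pow_le_pow_right₀ (by norm_num) (by omega)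
      linarith

/-- Power saving for the primes `p` such that `2 ^ V` does not divide `p + 1`. -/
lemma union_thin (V : ℕ) [DecidablePred Bad] : ∃ C : ℝ, 0 ≤ C ∧ ∀ X : ℕ,
      (((range (X + 1)).filter (fun p : ℕ => p.Prime ∧ ¬ 2 ^ V ∣ p + 1 ∧ Bad p)).card : ℝ) ≤
        C * (X : ℝ) ^ (1 - 1 / (2 : ℝ) ^ V) := by
  classical
  induction V with
  | zero =>
    refine ⟨0, le_rfl, fun X => ?_⟩
    rw [zero_mul]
    have : ((range (X + 1)).filter (fun p : ℕ => p.Prime ∧ ¬ 2 ^ 0 ∣ p + 1 ∧ Bad p)) = ∅ := by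
      rw [filter_eq_empty_iff]
      intro p _ hp
      exact hp.2.1 (by simp)
    rw [this]
    simp
  | succ v ih =>
    obtain ⟨C₁, hC₁, h₁⟩ := ih
    obtain ⟨C₂, hC₂, h₂⟩ := exact_thin v
    refine ⟨C₁ + C₂, by positivity, fun X => ?_⟩
    by_cases hX : X = 0
    · subst hX
      rw [empty_zero]
      simp only [card_empty, Nat.cast_zero]
      positivity
    · have hX1 : (1 : ℝ) ≤ X := by exact_mod_cast Nat.one_le_iff_ne_zero.2 hX
      have hsub : ((range (X + 1)).filter (fun p : ℕ => p.Prime ∧ ¬ 2 ^ (v + 1) ∣ p + 1 ∧ Bad p)) ⊆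
          ((range (X + 1)).filter (fun p : ℕ => p.Prime ∧ ¬ 2 ^ v ∣ p + 1 ∧ Bad p)) ∪
          ((range (X + 1)).filter (fun p : ℕ => p.Prime ∧ (2 ^ v ∣ p + 1 ∧ ¬ 2 ^ (v + 1) ∣ p + 1) ∧
            Bad p)) := by
        intro p hp
        rw [mem_filter] at hp
        rw [mem_union, mem_filter, mem_filter]
        by_cases hd : 2 ^ v ∣ p + 1
        · exact Or.inr ⟨hp.1, hp.2.1, ⟨hd, hp.2.2.1⟩, hp.2.2.2⟩
        · exact Or.inl ⟨hp.1, hp.2.1, hd, hp.2.2.2⟩
      have h3 : (((range (X + 1)).filter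
          (fun p : ℕ => p.Prime ∧ ¬ 2 ^ (v + 1) ∣ p + 1 ∧ Bad p)).card : ℝ) ≤
          (((range (X + 1)).filter (fun p : ℕ => p.Prime ∧ ¬ 2 ^ v ∣ p + 1 ∧ Bad p)).card : ℝ) +
          (((range (X + 1)).filter (fun p : ℕ => p.Prime ∧ (2 ^ v ∣ p + 1 ∧ ¬ 2 ^ (v + 1) ∣ p + 1) ∧
            Bad p)).card : ℝ) := by
        exact_mod_cast (card_le_card hsub).trans (card_union_le _ _)
      refine h3.trans ((add_le_add (h₁ X) (h₂ X)).trans ?_)
      rw [add_mul]
      refine add_le_add ?_ le_rfl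
      apply mul_le_mul_of_nonneg_left _ hC₁
      apply Real.rpow_le_rpow_of_exponent_le hX1
      have : 1 / (2 : ℝ) ^ (v + 1) ≤ 1 / (2 : ℝ) ^ v := by
        apply one_div_le_one_div_of_le (by positivity)
        exact pow_le_pow_right₀ (by norm_num) (by omega)
      linarith

open Classical in
/-- For every `V`, all but `O(X ^ (1 - 1 / 2 ^ V))` primes `p ≤ X` with `2 ^ V ∤ p + 1` satisfy
`int(G(PG(2,p))) ≥ 1`, and the primes for which this fails have relative density zero. -/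
theorem result :
    (∀ V : ℕ, ∃ C : ℝ, ∀ X : ℕ,
      (((range (X + 1)).filter (fun p : ℕ => p.Prime ∧ ¬ 2 ^ V ∣ p + 1 ∧ Bad p)).card : ℝ) ≤
        C * (X : ℝ) ^ (1 - 1 / (2 : ℝ) ^ V)) ∧
    Tendsto (fun X : ℕ => (((range (X + 1)).filter (fun p : ℕ => p.Prime ∧ Bad p)).card : ℝ) /
      (((range (X + 1)).filter Nat.Prime).card : ℝ)) atTop (𝓝 0) := by
  have h1 : ∀ V : ℕ, ∃ C : ℝ, ∀ X : ℕ,
      (((range (X + 1)).filter (fun p : ℕ => p.Prime ∧ ¬ 2 ^ V ∣ p + 1 ∧ Bad p)).card : ℝ) ≤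
        C * (X : ℝ) ^ (1 - 1 / (2 : ℝ) ^ V) := by
    intro V
    obtain ⟨C, _, h⟩ := union_thin V
    exact ⟨C, h⟩
  refine ⟨h1, ?_⟩
  have h2 := Thin42b.density_zero Bad (fun v => by
    obtain ⟨C, h⟩ := h1 v
    exact ⟨C, 1 / (2 : ℝ) ^ v, by positivity, h⟩)
  have h3 : ∀ X : ℕ, (((range (X + 1)).filter Nat.Prime).card : ℝ) = (Nat.primeCounting X : ℝ) := by
    intro X
    rw [Nat.primeCounting, Nat.primeCounting', Nat.count_eq_card_filter_range]
  simp_rw [h3]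
  exact h2

end Pool.Agent.Results.MP_42b82d_co.IntimacyDensity
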