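import Pool.Agent.Lib.MP_42b82d_co.PgSplit

set_option autoImplicit false

namespace Pool.Agent.Results.MP_42b82d_co.IntimacyOne

open Pool.Agent.Lib.MP_42b82d_co

/-- The intimacy of the incidence graph of `PG(2,p)` is at least `1` for every prime `p ≥ 40000`
which is not congruent to `47` modulo `48`. -/
theorem result (p : ℕ) [Fact p.Prime] (hp : 40000 ≤ p) (h : p % 48 ≠ 47) :
    1 ≤ intimacy (incidenceGraph (ZMod p)) :=
  one_le_intimacy_48 p hp h

end Pool.Agent.Results.MP_42b82d_co.IntimacyOne
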